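import Pool.Agent.Helper1.Stab.Defs

/-!
MP_ab4156_gt, project of helper1, packet BR1: the minors of a frame.
-/

open Topology Filter Set

noncomputable section

namespace Pool.Agent.Helper89.Stab

open Pool.Agent.Helper1.Stab

/-- The minor of the rows `S`. -/
def mnr {l : ℕ} (A : Frame l) (S : Fin l → Fin (2 * l)) : ℂ :=
  Matrix.det (Matrix.of fun r c : Fin l => A.1 (S r) c)

theorem continuous_mnr {l : ℕ} (S : Fin l → Fin (2 * l)) :
    Continuous (fun A : Frame l => mnr A S) := by
  unfold mnr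
  apply Continuous.matrix_det
  apply continuous_pi
  intro r
  apply continuous_pi
  intro c
  have h : Continuous (fun A : Frame l => A.1) := continuous_subtype_val
  show Continuous (fun A : Frame l => A.1 (S r) c)
  exact (continuous_apply (c : ℕ)).comp ((continuous_apply ((S r : Fin (2 * l)) : ℕ)).comp h)

theorem mnr_mul {l : ℕ} (A B : Frame l) (g : Matrix (Fin l) (Fin l) ℂ)
    (h : ∀ (i : ℕ) (j : Fin l), B.1 i j = ∑ c : Fin l, A.1 i c * g c j)
    (S : Fin l → Fin (2 * l)) : mnr B S = mnr A S * g.det := by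
  unfold mnr
  rw [← Matrix.det_mul]
  congr 1
  ext r c
  rw [Matrix.mul_apply]
  simp only [Matrix.of_apply]
  exact h _ _

theorem exists_mnr_ne {l : ℕ} (A : Frame l) : ∃ S, mnr A S ≠ 0 := by
  by_contra hc
  push Not at hc
  have h1 : (1 : Matrix (Fin l) (Fin l) ℂ) =
      fun r : Fin l => ∑ i : Fin (2 * l), star (A.1 i r) • (fun c : Fin l => A.1 i c) := by
    ext r c
    have h2 := A.2.2 r r.2 c c.2
    rw [Finset.sum_range] at h2
    rw [Finset.sum_apply, Matrix.one_apply]
    simp only [Pi.smul_apply, smul_eq_mul]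
    rw [h2]
    simp only [Fin.ext_iff]
  have h3 : Matrix.det (1 : Matrix (Fin l) (Fin l) ℂ) = 0 := by
    rw [h1]
    have h4 := (Matrix.detRowAlternating (n := Fin l) (R := ℂ)).toMultilinearMap.map_sum
      (fun (r : Fin l) (i : Fin (2 * l)) => star (A.1 i r) • (fun c : Fin l => A.1 i c))
    refine Eq.trans h4 (Finset.sum_eq_zero fun S _ => ?_)
    rw [MultilinearMap.map_smul_univ]
    have h5 := hc S
    unfold mnr at h5
    have h6 : (Matrix.detRowAlternating (n := Fin l) (R := ℂ)).toMultilinearMap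
        (fun i : Fin l => fun c : Fin l => A.1 (S i) c) = 0 := h5
    rw [h6, smul_zero]
  rw [Matrix.det_one] at h3
  exact one_ne_zero h3

/-- The square of the norm of the vector of the minors. -/
def nsq {l : ℕ} (A : Frame l) : ℝ := ∑ S, Complex.normSq (mnr A S)

theorem nsq_pos {l : ℕ} (A : Frame l) : 0 < nsq A := by
  obtain ⟨S, hS⟩ := exists_mnr_ne A
  exact Finset.sum_pos' (fun _ _ => Complex.normSq_nonneg _)
    ⟨S, Finset.mem_univ _, Complex.normSq_pos.2 hS⟩

theorem continuous_nsq {l : ℕ} : Continuous (fun A : Frame l => nsq A) :=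
  continuous_finsetSum _ fun S _ => Complex.continuous_normSq.comp (continuous_mnr S)

theorem det_star {l : ℕ} (g : Matrix (Fin l) (Fin l) ℂ) (hg : g ∈ Matrix.unitaryGroup (Fin l) ℂ) :
    Complex.normSq g.det = 1 := by
  have h1 : star g * g = 1 := (Matrix.mem_unitaryGroup_iff').1 hg
  have h2 := congrArg Matrix.det h1
  rw [Matrix.det_mul, Matrix.star_eq_conjTranspose, Matrix.det_conjTranspose, Matrix.det_one] at h2
  have h3 : ((Complex.normSq g.det : ℝ) : ℂ) = 1 := by
    rw [Complex.normSq_eq_conj_mul_self]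
    exact h2
  exact_mod_cast h3

theorem nsq_mul {l : ℕ} (A B : Frame l) (g : Matrix (Fin l) (Fin l) ℂ)
    (hg : g ∈ Matrix.unitaryGroup (Fin l) ℂ)
    (h : ∀ (i : ℕ) (j : Fin l), B.1 i j = ∑ c : Fin l, A.1 i c * g c j) : nsq B = nsq A := by
  unfold nsq
  refine Finset.sum_congr rfl fun S _ => ?_
  rw [mnr_mul A B g h S, Complex.normSq_mul, det_star g hg, mul_one]

/-- The number of the sets of rows. -/
def NN (l : ℕ) : ℕ := Fintype.card (Fin l → Fin (2 * l))

/-- The enumeration of the sets of rows. -/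
def EN (l : ℕ) : Fin (NN l) ≃ (Fin l → Fin (2 * l)) := (Fintype.equivFin _).symm

/-- The equivariant unit vector. -/
def vec {l : ℕ} (A : Frame l) (i : ℕ) : ℂ :=
  if h : i < NN l then star (mnr A (EN l ⟨i, h⟩)) / ((Real.sqrt (nsq A) : ℝ) : ℂ) else 0

theorem continuous_vec {l : ℕ} : Continuous (fun A : Frame l => vec A) := by
  apply continuous_pi
  intro i
  unfold vec
  by_cases h : i < NN l
  · simp only [dif_pos h]
    refine Continuous.div ?_ ?_ ?_
    · exact continuous_star.comp (continuous_mnr _)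
    · exact Complex.continuous_ofReal.comp (Real.continuous_sqrt.comp continuous_nsq)
    · intro A
      exact_mod_cast (Real.sqrt_pos.2 (nsq_pos A)).ne'
  · simp only [dif_neg h]
    exact continuous_const

theorem vec_unit {l : ℕ} (A : Frame l) :
    ∑ i ∈ Finset.range (NN l), star (vec A i) * vec A i = 1 := by
  rw [Finset.sum_range]
  have h0 : ∀ i : Fin (NN l), star (vec A i) * vec A i =
      ((Complex.normSq (mnr A (EN l i)) / nsq A : ℝ) : ℂ) := by
    intro i
    unfold vec
    rw [dif_pos i.2]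
    have h1 : ((Real.sqrt (nsq A) : ℝ) : ℂ) * ((Real.sqrt (nsq A) : ℝ) : ℂ) = (nsq A : ℂ) := by
      rw [← Complex.ofReal_mul, Real.mul_self_sqrt (nsq_pos A).le]
    rw [star_div₀, star_star]
    have h2 : star ((Real.sqrt (nsq A) : ℝ) : ℂ) = ((Real.sqrt (nsq A) : ℝ) : ℂ) :=
      Complex.conj_ofReal _
    rw [h2, div_mul_div_comm, h1, Complex.ofReal_div, Complex.normSq_eq_conj_mul_self, mul_comm]
    rfl
  rw [Finset.sum_congr rfl fun i _ => h0 i]
  rw [← Complex.ofReal_sum, ← Finset.sum_div]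
  have h3 : ∑ i : Fin (NN l), Complex.normSq (mnr A (EN l i)) = nsq A := by
    unfold nsq
    exact Equiv.sum_comp (EN l) (fun S => Complex.normSq (mnr A S))
  rw [h3, div_self (nsq_pos A).ne', Complex.ofReal_one]

theorem vec_equiv {l : ℕ} (A B : Frame l) (g : Matrix (Fin l) (Fin l) ℂ)
    (hg : g ∈ Matrix.unitaryGroup (Fin l) ℂ)
    (h : ∀ (i : ℕ) (j : Fin l), B.1 i j = ∑ c : Fin l, A.1 i c * g c j) (i : ℕ) :
    vec B i = star g.det * vec A i := by
  unfold vec
  by_cases hi : i < NN l
  · rw [dif_pos hi, dif_pos hi, mnr_mul A B g h, nsq_mul A B g hg h, star_mul, mul_div_assoc]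
  · rw [dif_neg hi, dif_neg hi, mul_zero]

end Pool.Agent.Helper89.Stab
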