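import Pool.Agent.Helper1.Stab.PR

/-! The Hurewicz image of the Bott class: the computation over `ℂP¹`. -/

open Topology Filter Set Matrix

noncomputable section

namespace Pool.Agent.Helper89.Stab

open Pool.Agent.Helper1.Stab

/-- extension by zero gives an equivalent family -/
theorem uequiv_ext {X S T : Type} [TopologicalSpace X] [Fintype S] [Fintype T] (j : S ↪ T)
    {n : ℕ} (l : X → Pr S n) (hl : Continuous l) : UEquiv l (fun x => Pr.ext j (l x)) := by
  classical
  have h1 : ∀ (P : Pr S n) (s t : S), (Pr.ext j P).1 (j s) (j t) = P.1 s t := by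
    intro P s t
    have h : (∃ u, j u = j s) ∧ ∃ u, j u = j t := ⟨⟨s, rfl⟩, ⟨t, rfl⟩⟩
    have e : (Pr.ext j P).1 (j s) (j t) = P.1 h.1.choose h.2.choose := dif_pos h
    rw [e, j.injective h.1.choose_spec, j.injective h.2.choose_spec]
  have h2 : ∀ (P : Pr S n) (x y : T), (¬ ∃ s, j s = y) → (Pr.ext j P).1 x y = 0 := by
    intro P x y h
    exact dif_neg fun h' => h h'.2
  have hherm : ∀ (P : Pr T n) (x y : T), star (P.1 x y) = P.1 y x := by
    intro P x y
    have h := congrFun (congrFun P.2.1 y) x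
    rw [← h, conjTranspose_apply]
  have hc : ∀ a b, Continuous fun x => (Pr.ext j (l x)).1 a b := fun a b =>
    (Pr.continuous_val69.comp ((Pr.continuous_ext j).comp hl)).matrix_elem a b
  refine ⟨fun x => fun t s => (Pr.ext j (l x)).1 t (j s),
    continuous_matrix fun t s => hc t (j s), fun x => ?_, fun x => ?_⟩
  · ext s s'
    rw [mul_apply]
    simp only [conjTranspose_apply, hherm]
    have h3 := congrFun (congrFun (Pr.ext j (l x)).2.2.1 (j s)) (j s')
    rw [mul_apply] at h3
    rw [h3, h1]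
  · ext t t'
    rw [mul_apply]
    simp only [conjTranspose_apply, hherm]
    have h3 := congrFun (congrFun (Pr.ext j (l x)).2.2.1 t) t'
    rw [mul_apply] at h3
    rw [← h3]
    refine Fintype.sum_of_injective j j.injective _ _ ?_ fun _ => rfl
    intro i hi
    rw [h2 _ _ _ fun h => hi h, zero_mul]

section
variable {R : Biv} (o : Orient R)

theorem upow_zero (S : Type) [Fintype S] :
    o.upow S 0 = R.J (PMap.toPoint (LC.Pr S 1)) := by
  unfold Orient.upow Orient.Epow
  rw [R.tens_J, ← R.J_comp, ← R.J_comp]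
  rfl

theorem upow_bool : o.upow Bool 1 =
    R.comp (R.J collP1) (R.J (PMap.ofHomeo (LC.lunit LC.C).symm)) := by
  unfold Orient.upow
  simp only [Orient.Epow, Orient.E]
  rw [o.u_bool, Orient.pj_ltens_J, ← R.J_comp, R.tens_J, ← R.J_comp, ← R.J_comp, R.tens_J,
    ← R.J_comp, ← R.J_comp, ← R.J_comp]
  congr 1
  ext P
  have key : ∀ c : OnePoint ℂ,
      (PMap.ofHomeo (LC.lunit (Cn 1))).plus (((PMap.toPoint (LC.Pr Bool 1)).tens (Cn 1)).plus
        ((PMap.ofHomeo
        { toFun := fun x => (x.1.1, (x.2, x.1.2))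
          invFun := fun x => ((x.1, x.2.2), x.2.1)
          left_inv := fun _ => rfl
          right_inv := fun _ => rfl
          continuous_toFun := by fun_prop
          continuous_invFun := by fun_prop :
          (((LC.Pr Bool 1).prod LC.C).prod (Cn 0)) ≃ₜ (LC.Pr Bool 1).prod ((Cn 0).prod LC.C) }).plus
        (smashPt ((LC.Pr Bool 1).prod LC.C) (Cn 0) (smashPt (LC.Pr Bool 1) LC.C
          (OnePoint.some (X := LC.Pr Bool 1) P, c), OnePoint.some (X := Cn 0) PUnit.unit)))) =
      (PMap.ofHomeo (LC.lunit LC.C).symm).plus c := by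
    intro c
    rcases c with _ | z <;> rfl
  rw [PMap.comp_apply, PMap.comp_apply, PMap.comp_apply, PMap.plus_comp, PMap.plus_comp]
  exact key (collP1 P)

/-- the reduced class of the tautological line over `ℂP¹` -/
theorem hur_aux (P : PRTheory R) :
    P.comp (P.J collP1) (P.comp (P.J (PMap.ofHomeo (LC.lunit LC.C).symm)) (P.b o 1)) =
      P.toGBiv.bun (K := LC.Pr Bool 1) (ContinuousMap.id _) - P.toGBiv.one (LC.Pr Bool 1) := by
  -- the embedding of index sets
  let j : Fin 2 ↪ Bool := (finTwoEquiv : Fin 2 ≃ Bool).toEmbedding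
  have hb : P.b o 1 = P.comp (P.inc (o.b Bool 1))
      (P.toGBiv.bun (K := LC.Pr Bool 1) (ContinuousMap.id _)) := by
    have h1 := P.toGBiv.bun_congr (K := LC.Pr (Fin 2) 1) (ContinuousMap.id _)
      ⟨Pr.ext j, Pr.continuous_ext j⟩ (uequiv_ext j _ continuous_id)
    have h2 := P.toGBiv.bun_comp (K := LC.Pr (Fin 2) 1) (L := LC.Pr Bool 1)
      ⟨Pr.ext j, Pr.continuous_ext j⟩ (ContinuousMap.id _)
    rw [ContinuousMap.id_comp] at h2
    have h3 := o.b_ext j (i := 1) (by simp)
    unfold PRTheory.b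
    rw [← h3, P.inc_comp, P.inc_J, P.assoc]
    exact congrArg _ (h1.trans h2.symm)
  have hsum : ∑ i ∈ Finset.range (Fintype.card Bool), R.comp (o.upow Bool i) (o.b Bool i) =
      R.J (PMap.id _) := (o.exists_dual Bool).choose_spec.2.2.2
  have hsum' : R.comp (o.upow Bool 0) (o.b Bool 0) + R.comp (o.upow Bool 1) (o.b Bool 1) =
      R.J (PMap.id _) := by
    rw [Fintype.card_bool, Finset.sum_range_succ, Finset.sum_range_one] at hsum
    exact hsum
  -- the term of the point
  have e0 : P.comp (P.inc (R.comp (o.upow Bool 0) (o.b Bool 0)))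
      (P.toGBiv.bun (K := LC.Pr Bool 1) (ContinuousMap.id _)) = P.toGBiv.one (LC.Pr Bool 1) := by
    have h5 := P.toGBiv.bun_comp (K := LC.Pr Bool 1) (L := LC.Pr Bool 1)
      (ContinuousMap.const _ (Pr.line true)) (ContinuousMap.id _)
    rw [ContinuousMap.id_comp, P.toGBiv.bun_const] at h5
    have h6 : R.comp (o.upow Bool 0) (o.b Bool 0) =
        R.J (PMap.ofCont (K := LC.Pr Bool 1) (L := LC.Pr Bool 1)
        (ContinuousMap.const _ (Pr.line true))
        (ContinuousMap.const _ (Pr.line true)).continuous) := by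
      have h7 : PMap.ofCont (K := LC.Pr Bool 1) (L := LC.Pr Bool 1)
          (ContinuousMap.const _ (Pr.line true))
          (ContinuousMap.const _ (Pr.line true)).continuous =
          (PMap.ofPoint (K := LC.Pr Bool 1) (Pr.line true)).comp
            (PMap.toPoint (LC.Pr Bool 1)) := by
        ext x
        rfl
      rw [h7, R.J_comp, ← o.b_zero Bool true, ← upow_zero o Bool]
      rfl
    rw [h6, P.inc_J]
    exact h5
  -- the term of the reduced class
  have e1 : P.comp (P.inc (R.comp (o.upow Bool 1) (o.b Bool 1)))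
      (P.toGBiv.bun (K := LC.Pr Bool 1) (ContinuousMap.id _)) =
      P.comp (P.J collP1) (P.comp (P.J (PMap.ofHomeo (LC.lunit LC.C).symm)) (P.b o 1)) := by
    have h8 : P.inc (o.upow Bool 1) =
        P.comp (P.J collP1) (P.J (PMap.ofHomeo (K := LC.C) (L := Cn 1) (LC.lunit LC.C).symm)) := by
      rw [← P.inc_J, ← P.inc_J, ← P.inc_comp]
      exact congrArg P.inc (upow_bool o)
    rw [P.inc_comp, h8, hb, P.assoc, P.assoc]
    rfl
  have e2 := congrArg (fun x => P.comp (P.inc x)
    (P.toGBiv.bun (K := LC.Pr Bool 1) (ContinuousMap.id _))) hsum'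
  simp only at e2
  rw [P.inc_add, P.add_comp, P.inc_J, P.id_comp, e0, e1] at e2
  rw [← e2, add_sub_cancel_left]

end

end Pool.Agent.Helper89.Stab
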