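import Pool.Agent.Helper1.Stab.Proj
import Pool.Agent.Helper9.Stab.SplitPt

/-! The contraction of the neighbourhood of the last coordinate line in projective space. -/

open Topology Filter Set Matrix

noncomputable section

namespace Pool.Agent.Helper89.Stab

open Pool.Agent.Helper1.Stab Pool.Agent.Helper9.Stab

variable {S : Type} [Fintype S]

theorem sp_herm (P : Pr (Option S) 1) (i j : Option S) : star (P.1 i j) = P.1 j i := by
  have h := congrFun (congrFun P.2.1 j) i
  rw [← h, conjTranspose_apply]

theorem sp_real (P : Pr (Option S) 1) : ((P.1 none none).re : ℂ) = P.1 none none :=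
  Complex.conj_eq_iff_re.1 (sp_herm P none none)

theorem sp_rank (P : Pr (Option S) 1) (h : P.1 none none ≠ 0) (i j : Option S) :
    P.1 i none * P.1 none j = P.1 none none * P.1 i j := by
  classical
  have h1 : P.1ᴴ = P.1 := P.2.1
  have h2 : P.1 * P.1 = P.1 := P.2.2.1
  have h3 : P.1.trace = 1 := by rw [P.2.2.2]; simp
  have ha : star (P.1 none none) = P.1 none none := sp_herm P none none
  set V : Matrix (Option S) (Option S) ℂ := vecMulVec (fun i => P.1 i none)
    (fun j => P.1 none j) with hV
  have e1 : P.1 * V = V := by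
    rw [hV, mul_vecMulVec]
    congr 1
    ext i
    exact congrFun (congrFun h2 i) none
  have e2 : V * P.1 = V := by
    rw [hV, vecMulVec_mul]
    congr 1
    ext i
    exact congrFun (congrFun h2 none) i
  have e3 : V * V = P.1 none none • V := by
    ext i j
    rw [hV, mul_apply, Matrix.smul_apply, smul_eq_mul]
    simp only [vecMulVec_apply]
    have h4 := congrFun (congrFun h2 none) none
    rw [mul_apply] at h4
    rw [← h4, Finset.sum_mul]
    refine Finset.sum_congr rfl fun k _ => ?_
    ring
  have e4 : Vᴴ = V := by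
    ext i j
    rw [conjTranspose_apply, hV, vecMulVec_apply, vecMulVec_apply, star_mul', sp_herm, sp_herm,
      mul_comm]
  have e5 : V.trace = P.1 none none := by
    have h4 := congrFun (congrFun h2 none) none
    rw [mul_apply] at h4
    rw [← h4, trace]
    refine Finset.sum_congr rfl fun k _ => ?_
    rw [diag_apply, hV, vecMulVec_apply, mul_comm]
  have hE : (P.1 - (P.1 none none)⁻¹ • V) = 0 := by
    open ComplexOrder in
    rw [← trace_conjTranspose_mul_self_eq_zero_iff]
    rw [conjTranspose_sub, conjTranspose_smul, star_inv₀, ha, h1, e4, sub_mul, mul_sub, mul_sub, h2,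
      mul_smul_comm, e1, smul_mul_assoc, e2, smul_mul_smul_comm, e3, smul_smul, mul_assoc,
      inv_mul_cancel₀ h, mul_one, sub_self, sub_zero, trace_sub, trace_smul, h3, e5, smul_eq_mul,
      inv_mul_cancel₀ h, sub_self]
  have h5 := congrFun (congrFun hE i) j
  rw [Matrix.sub_apply, Matrix.smul_apply, hV, vecMulVec_apply, Matrix.zero_apply, smul_eq_mul, sub_eq_zero] at h5
  rw [h5, mul_inv_cancel_left₀ h]

/-- the value at the last entry is at most one -/
theorem sp_le (P : Pr (Option S) 1) : (P.1 none none).re ≤ 1 := by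
  have h := GK.entry_le P.1 P.2.1 P.2.2.1 none none
  exact (Complex.re_le_norm _).trans h

theorem sp_eq (P : Pr (Option S) 1) (h : (P.1 none none).re = 1) : P = Pr.line none := by
  classical
  have hn : P.1 none none = 1 := by rw [← sp_real P, h]; rfl
  apply Subtype.ext
  ext i j
  have h1 := sp_rank P (by rw [hn]; exact one_ne_zero) i j
  have h0 : ∀ s : S, P.1 (some s) none = 0 := by
    have h2 := congrFun (congrFun P.2.2.1 none) none
    rw [mul_apply, Fintype.sum_option, hn, one_mul, add_eq_left] at h2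
    have h3 : ∀ s : S, P.1 none (some s) * P.1 (some s) none =
        ((‖P.1 (some s) none‖ ^ 2 : ℝ) : ℂ) := by
      intro s
      rw [← sp_herm P (some s) none, Complex.ofReal_pow]
      exact Complex.conj_mul' _
    simp only [h3] at h2
    rw [← Complex.ofReal_sum, Complex.ofReal_eq_zero,
      Finset.sum_eq_zero_iff_of_nonneg (fun _ _ => by positivity)] at h2
    intro s
    exact norm_eq_zero.1 (pow_eq_zero_iff (two_ne_zero)|>.1 (h2 s (Finset.mem_univ s)))
  have h4 : ∀ s : S, P.1 none (some s) = 0 := fun s => by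
    rw [← sp_herm P (some s) none, h0, star_zero]
  rw [hn, one_mul] at h1
  rw [← h1]
  rcases i with _ | i <;> rcases j with _ | j
  · simp [Pr.line, hn]
  · simp [Pr.line, h4]
  · simp [Pr.line, h0]
  · simp [Pr.line, h0]

theorem sp_line : ((Pr.line (none : Option S)).1 none none).re = 1 := by
  simp [Pr.line]

/-- weights -/
def spw (c : ℝ) (i : Option S) : ℝ := i.elim 1 (fun _ => c)

/-- the normalising factor -/
def spt (c : ℝ) (P : Pr (Option S) 1) : ℝ :=
  c ^ 2 * (1 - (P.1 none none).re) + (P.1 none none).re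

/-- the contracted matrix -/
def spM (c : ℝ) (P : Pr (Option S) 1) : Matrix (Option S) (Option S) ℂ :=
  fun i j => (((spt c P)⁻¹ * (spw c i * spw c j) : ℝ) : ℂ) * P.1 i j

theorem spt_ge (c : ℝ) (P : Pr (Option S) 1) (h : 1 / 3 ≤ (P.1 none none).re) :
    1 / 3 ≤ spt c P := by
  have h1 := sp_le P
  have h2 : 0 ≤ c ^ 2 * (1 - (P.1 none none).re) :=
    mul_nonneg (sq_nonneg _) (by linarith)
  rw [spt]
  linarith

theorem spt_le (c : ℝ) (hc : c ^ 2 ≤ 1) (P : Pr (Option S) 1) : spt c P ≤ 1 := by
  have h1 := sp_le P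
  have h2 : c ^ 2 * (1 - (P.1 none none).re) ≤ 1 * (1 - (P.1 none none).re) :=
    mul_le_mul_of_nonneg_right hc (by linarith)
  rw [spt]
  linarith

theorem spM_mem (c : ℝ) (P : Pr (Option S) 1) (h : 1 / 3 ≤ (P.1 none none).re) :
    (spM c P)ᴴ = spM c P ∧ spM c P * spM c P = spM c P ∧ (spM c P).trace = (1 : ℕ) := by
  have ht := spt_ge c P h
  have ht0 : spt c P ≠ 0 := by linarith
  have ht0' : (spt c P : ℂ) ≠ 0 := by exact_mod_cast ht0
  have hn : P.1 none none ≠ 0 := by
    intro h0
    rw [h0] at h
    norm_num at h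
  have htr : P.1 none none + ∑ s : S, P.1 (some s) (some s) = 1 := by
    have h3 := P.2.2.2
    rw [trace, Fintype.sum_option] at h3
    simpa using h3
  have htc : (spt c P : ℂ) = (c : ℂ) ^ 2 * (1 - P.1 none none) + P.1 none none := by
    rw [spt]
    push_cast
    rw [sp_real]
  refine ⟨?_, ?_, ?_⟩
  · ext i j
    rw [conjTranspose_apply, spM, spM, star_mul', sp_herm, mul_comm (spw c j)]
    congr 1
    exact Complex.conj_ofReal _
  · ext i j
    rw [mul_apply, Fintype.sum_option]
    have h1 := sp_rank P hn i j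
    have h2 := congrFun (congrFun P.2.2.1 i) j
    rw [mul_apply, Fintype.sum_option] at h2
    have h3 : ∀ s : S, spM c P i (some s) * spM c P (some s) j =
        (((spt c P)⁻¹ ^ 2 * (spw c i * spw c j) * c ^ 2 : ℝ) : ℂ) *
          (P.1 i (some s) * P.1 (some s) j) := by
      intro s
      simp only [spM, spw, Option.elim_some]
      push_cast
      ring
    have h4 : spM c P i none * spM c P none j =
        (((spt c P)⁻¹ ^ 2 * (spw c i * spw c j) : ℝ) : ℂ) * (P.1 i none * P.1 none j) := by
      simp only [spM, spw, Option.elim_none]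
      push_cast
      ring
    rw [Finset.sum_congr rfl fun s _ => h3 s, ← Finset.mul_sum, h4,
      eq_sub_of_add_eq' h2, h1, spM]
    have h5 : (spt c P : ℂ) * P.1 i j = ((c : ℂ) ^ 2 * (1 - P.1 none none) + P.1 none none) * P.1 i j := by
      rw [htc]
    push_cast
    field_simp
    linear_combination (-1 : ℂ) * (spw c i * spw c j : ℂ) * h5
  · rw [trace, Fintype.sum_option]
    simp only [diag_apply]
    have h3 : ∀ s : S, spM c P (some s) (some s) =
        (((spt c P)⁻¹ * c ^ 2 : ℝ) : ℂ) * P.1 (some s) (some s) := by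
      intro s
      simp only [spM, spw, Option.elim_some]
      push_cast
      ring
    have h4 : spM c P none none = (((spt c P)⁻¹ : ℝ) : ℂ) * P.1 none none := by
      simp only [spM, spw, Option.elim_none]
      push_cast
      ring
    rw [Finset.sum_congr rfl fun s _ => h3 s, ← Finset.mul_sum, h4, eq_sub_of_add_eq' htr]
    push_cast
    field_simp
    rw [htc]
    ring

/-- the contracted line -/
def spP (c : ℝ) (P : Pr (Option S) 1) (h : 1 / 3 ≤ (P.1 none none).re) : Pr (Option S) 1 :=
  ⟨spM c P, spM_mem c P h⟩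

theorem spP_re (c : ℝ) (P : Pr (Option S) 1) (h : 1 / 3 ≤ (P.1 none none).re) :
    ((spP c P h).1 none none).re = (P.1 none none).re / spt c P := by
  show ((((spt c P)⁻¹ * (1 * 1) : ℝ) : ℂ) * P.1 none none).re = _
  rw [Complex.re_ofReal_mul]
  ring

theorem spP_ge (c : ℝ) (hc : c ^ 2 ≤ 1) (P : Pr (Option S) 1)
    (h : 1 / 3 ≤ (P.1 none none).re) : 1 / 3 ≤ ((spP c P h).1 none none).re := by
  rw [spP_re, le_div_iff₀ (by linarith [spt_ge c P h])]
  linarith [spt_le c hc P]

theorem spP_one (P : Pr (Option S) 1) (h : 1 / 3 ≤ (P.1 none none).re) : spP 1 P h = P := by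
  apply Subtype.ext
  ext i j
  have h1 : spt 1 P = 1 := by rw [spt]; ring
  have h2 : ∀ i : Option S, spw 1 i = 1 := by
    intro i
    rcases i with _ | i <;> rfl
  show (((spt 1 P)⁻¹ * (spw 1 i * spw 1 j) : ℝ) : ℂ) * P.1 i j = P.1 i j
  rw [h1, h2, h2]
  simp

theorem spP_zero (P : Pr (Option S) 1) (h : 1 / 3 ≤ (P.1 none none).re) :
    spP 0 P h = Pr.line none := by
  apply sp_eq
  rw [spP_re]
  have h1 : spt 0 P = (P.1 none none).re := by rw [spt]; ring
  rw [h1, div_self (by linarith)]

theorem continuous_spP {X : Type} [TopologicalSpace X] (c : X → ℝ) (hc : Continuous c)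
    (P : X → Pr (Option S) 1) (hP : Continuous P) (h : ∀ x, 1 / 3 ≤ ((P x).1 none none).re) :
    Continuous fun x => spP (c x) (P x) (h x) := by
  have hP' : Continuous fun x => (P x).1 := Pr.continuous_val69.comp hP
  have he : ∀ i j, Continuous fun x => (P x).1 i j := fun i j => hP'.matrix_elem i j
  have hr : Continuous fun x => ((P x).1 none none).re := Complex.continuous_re.comp (he _ _)
  have ht : Continuous fun x => spt (c x) (P x) :=
    ((hc.pow 2).mul (continuous_const.sub hr)).add hr
  have hw : ∀ i : Option S, Continuous fun x => spw (c x) i := by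
    intro i
    rcases i with _ | i
    · exact continuous_const
    · exact hc
  refine Continuous.subtype_mk (continuous_matrix fun i j => ?_) _
  exact (Complex.continuous_ofReal.comp ((ht.inv₀ fun x => by
    have := spt_ge (c x) (P x) (h x)
    linarith).mul ((hw i).mul (hw j)))).mul (he i j)

/-! ## The homotopies -/

variable (S) in
/-- the function `3 P_nn - 1` -/
def spu : C(LC.Pr (Option S) 1, ℝ) :=
  ⟨fun P => 3 * (P.1 none none).re - 1, ((continuous_const.mul (Complex.continuous_re.comp
    (Pr.continuous_val69.matrix_elem none none))).sub continuous_const)⟩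

theorem spu_line : 1 < spu S (Pr.line none) := by
  show 1 < 3 * ((Pr.line (none : Option S)).1 none none).re - 1
  rw [sp_line]
  norm_num

theorem spu_ge {P : Pr (Option S) 1} (h : 0 ≤ spu S P) : 1 / 3 ≤ (P.1 none none).re := by
  have h' : 0 ≤ 3 * (P.1 none none).re - 1 := h
  linarith

theorem spu_nonneg {P : Pr (Option S) 1} (h : 1 / 3 ≤ (P.1 none none).re) : 0 ≤ spu S P := by
  show 0 ≤ 3 * (P.1 none none).re - 1
  linarith

theorem sym_sq (s : unitInterval) : (1 - (s : ℝ)) ^ 2 ≤ 1 := by
  have h0 := s.2.1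
  have h1 := s.2.2
  nlinarith

/-- the contraction of the neighbourhood -/
def spN (x : LC.I.prod (MV.B (spu S))) : MV.B (spu S) :=
  ⟨spP (1 - (x.1 : ℝ)) x.2.1 (spu_ge x.2.2), spu_nonneg (spP_ge _ (sym_sq x.1) _ (spu_ge x.2.2))⟩

theorem continuous_spN : Continuous (spN (S := S)) := by
  refine Continuous.subtype_mk ?_ _
  exact continuous_spP _ (continuous_const.sub (continuous_subtype_val.comp continuous_fst)) _
    (continuous_subtype_val.comp continuous_snd) _

theorem split_hN : ∃ g : PMap (MV.B (spu S)) (MV.B (spu S)).plus,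
    (∀ x, g x = OnePoint.some (X := MV.B (spu S))
      ⟨Pr.line none, (zero_lt_one.trans (spu_line (S := S))).le⟩) ∧
    (PMap.id (MV.B (spu S))).Homotopic g := by
  have : CompactSpace (LC.I.prod (MV.B (spu S))) :=
    inferInstanceAs (CompactSpace (unitInterval × (MV.B (spu S))))
  refine ⟨PMap.ofCont (K := MV.B (spu S)) (L := MV.B (spu S)) (fun _ =>
      ⟨Pr.line none, (zero_lt_one.trans (spu_line (S := S))).le⟩) continuous_const,
    fun _ => rfl, PMap.ofCont (K := LC.I.prod (MV.B (spu S))) (L := MV.B (spu S)) spN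
      continuous_spN, fun k => ?_, fun k => ?_⟩
  · show OnePoint.some (X := MV.B (spu S)) (spN (0, k)) = OnePoint.some (X := MV.B (spu S)) k
    congr 1
    apply Subtype.ext
    show spP (1 - ((0 : unitInterval) : ℝ)) k.1 (spu_ge k.2) = k.1
    have h : (1 - ((0 : unitInterval) : ℝ)) = 1 := by simp
    exact (congrArg (fun c => spP c k.1 (spu_ge k.2)) h).trans (spP_one k.1 (spu_ge k.2))
  · show OnePoint.some (X := MV.B (spu S)) (spN (1, k)) = OnePoint.some (X := MV.B (spu S)) _
    congr 1
    apply Subtype.ext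
    show spP (1 - ((1 : unitInterval) : ℝ)) k.1 (spu_ge k.2) = Pr.line none
    have h : (1 - ((1 : unitInterval) : ℝ)) = 0 := by simp
    exact (congrArg (fun c => spP c k.1 (spu_ge k.2)) h).trans (spP_zero k.1 (spu_ge k.2))

/-- the base point of the neighbourhood -/
abbrev spp (S : Type) [Fintype S] : LC.Pr (Option S) 1 := Pr.line none

theorem spP_ne (c : ℝ) (hc : c ≠ 0) (P : Pr (Option S) 1) (h : 1 / 3 ≤ (P.1 none none).re)
    (hP : P ≠ Pr.line none) : spP c P h ≠ Pr.line none := by
  intro h1
  have h2 := spP_re c P h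
  rw [h1, sp_line] at h2
  have h3 := spt_ge c P h
  have h4 : spt c P = (P.1 none none).re := by
    rw [eq_div_iff (by linarith)] at h2
    linarith
  have h5 : c ^ 2 * (1 - (P.1 none none).re) = 0 := by
    rw [spt] at h4
    linarith
  rcases mul_eq_zero.1 h5 with h6 | h6
  · exact hc (pow_eq_zero_iff (two_ne_zero) |>.1 h6)
  · exact hP (sp_eq P (by linarith))

/-- the open set of the homotopy -/
def spO (S : Type) [Fintype S] : Set (LC.I.prod (MV.B (uM (spp S) (spu S)))) :=
  {x | (x.1 : ℝ) < 1}

/-- the contraction away from the end -/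
def spG (x : spO S) : MV.B (uM (spp S) (spu S)) :=
  ⟨⟨spP (1 - (x.1.1 : ℝ)) x.1.2.1.1 (spu_ge x.1.2.2),
    spP_ne _ (sub_ne_zero.2 (ne_of_gt x.2)) _ (spu_ge x.1.2.2) x.1.2.1.2⟩,
    spu_nonneg (spP_ge _ (sym_sq x.1.1) _ (spu_ge x.1.2.2))⟩

theorem continuous_spG : Continuous (spG (S := S)) := by
  refine Continuous.subtype_mk (Continuous.subtype_mk ?_ _) _
  exact continuous_spP _ (continuous_const.sub (continuous_subtype_val.comp
    (continuous_fst.comp continuous_subtype_val))) _
    (continuous_subtype_val.comp (continuous_subtype_val.comp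
      (continuous_snd.comp continuous_subtype_val))) _

open Classical in
/-- the homotopy to the constant map at infinity -/
def spF (x : LC.I.prod (MV.B (uM (spp S) (spu S)))) : OnePoint (MV.B (uM (spp S) (spu S))) :=
  if h : x ∈ spO S then OnePoint.some (X := MV.B (uM (spp S) (spu S))) (spG ⟨x, h⟩)
  else OnePoint.infty

theorem spF_aux : Continuous (spF (S := S)) ∧ Tendsto (spF (S := S)) (cocompact _)
    (𝓝 (OnePoint.infty : OnePoint (MV.B (uM (spp S) (spu S))))) := by
  refine MV.partial_open (X := LC.I.prod (MV.B (uM (spp S) (spu S))))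
    (L := MV.B (uM (spp S) (spu S))) (spO S) ?_ spG continuous_spG spF (fun x => ?_)
    (fun x hx => ?_) (fun D hD => ?_)
  · exact isOpen_lt (continuous_subtype_val.comp continuous_fst) continuous_const
  · exact dif_pos x.2
  · exact dif_neg hx
  · -- the bound on the compact set
    have hcP : Continuous fun P : MV.B (uM (spp S) (spu S)) => (P.1.1 : Pr (Option S) 1) :=
      continuous_subtype_val.comp continuous_subtype_val
    have hcr : Continuous fun P : MV.B (uM (spp S) (spu S)) => (P.1.1.1 none none).re :=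
      Complex.continuous_re.comp ((Pr.continuous_val69.comp hcP).matrix_elem none none)
    obtain ⟨ε, hε, hb⟩ : ∃ ε : ℝ, 0 < ε ∧ ∀ P ∈ D, (P.1.1.1 none none).re ≤ 1 - ε := by
      rcases D.eq_empty_or_nonempty with h0 | h0
      · exact ⟨1, one_pos, fun P hP => by rw [h0] at hP; exact absurd hP (notMem_empty _)⟩
      · obtain ⟨P, hP, hmax⟩ := hD.exists_isMaxOn h0 hcr.continuousOn
        refine ⟨1 - (P.1.1.1 none none).re, ?_, fun Q hQ => ?_⟩
        · have h1 := sp_le (P.1.1 : Pr (Option S) 1)
          rcases h1.lt_or_eq with h2 | h2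
          · linarith
          · exact absurd (sp_eq _ h2) P.1.2
        · have := hmax hQ
          simp only [mem_ofPred_eq] at this
          linarith
    -- the compact set of lines
    let T : Set (Pr (Option S) 1) := {P | 1 / 3 ≤ (P.1 none none).re ∧
      (P.1 none none).re ≤ 1 - ε / 3}
    have hre : Continuous fun P : Pr (Option S) 1 => (P.1 none none).re :=
      Complex.continuous_re.comp (Pr.continuous_val69.matrix_elem none none)
    have hT : IsCompact T := ((isClosed_le continuous_const hre).inter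
      (isClosed_le hre continuous_const)).isCompact
    have : CompactSpace T := isCompact_iff_compactSpace.1 hT
    let j : T → MV.B (uM (spp S) (spu S)) := fun P => ⟨⟨P.1, fun h => by
      have h1 := P.2.2
      rw [mem_singleton_iff] at h
      rw [h, sp_line] at h1
      linarith⟩, spu_nonneg P.2.1⟩
    have hj : Continuous j :=
      Continuous.subtype_mk (Continuous.subtype_mk continuous_subtype_val _) _
    let I' : Set unitInterval := {s | (s : ℝ) ≤ 1 - ε / 3}
    have hI' : IsCompact I' := (isClosed_le continuous_subtype_val continuous_const).isCompact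
    refine ⟨I' ×ˢ (range j), hI'.prod (isCompact_range hj), ?_, ?_⟩
    · rintro ⟨s, P⟩ ⟨hs, -⟩
      have hs' : (s : ℝ) ≤ 1 - ε / 3 := hs
      show (s : ℝ) < 1
      linarith
    · intro x hx
      have h1 := hb _ hx
      have h2 : ((spP (1 - (x.1.1 : ℝ)) x.1.2.1.1 (spu_ge x.1.2.2)).1 none none).re ≤ 1 - ε := h1
      rw [spP_re] at h2
      set a := (x.1.2.1.1.1 none none).re with ha
      set c := (1 - (x.1.1 : ℝ)) with hc
      have h3 := spt_ge c x.1.2.1.1 (spu_ge x.1.2.2)
      have h4 : 1 / 3 ≤ a := spu_ge x.1.2.2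
      have h5 : a ≤ 1 := sp_le _
      rw [div_le_iff₀ (by linarith)] at h2
      have h6 : spt c x.1.2.1.1 = c ^ 2 * (1 - a) + a := rfl
      have h7 : ε / 3 ≤ c ^ 2 * (1 - a) := by nlinarith
      have h8 : c ^ 2 ≤ 1 := sym_sq _
      have hs0 : (0 : ℝ) ≤ x.1.1 := x.1.1.2.1
      have hs1 : (x.1.1 : ℝ) ≤ 1 := x.1.1.2.2
      refine ⟨?_, ⟨⟨x.1.2.1.1, h4, ?_⟩, rfl⟩⟩
      · show (x.1.1 : ℝ) ≤ 1 - ε / 3
        have h9 : c ^ 2 * (1 - a) ≤ c ^ 2 * 1 :=
          mul_le_mul_of_nonneg_left (by linarith) (sq_nonneg _)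
        have h10 : c ^ 2 ≤ c := by nlinarith
        linarith
      · show a ≤ 1 - ε / 3
        have h9 : c ^ 2 * (1 - a) ≤ 1 * (1 - a) :=
          mul_le_mul_of_nonneg_right h8 (by linarith)
        linarith

theorem split_hB : (PMap.id (MV.B (uM (spp S) (spu S)))).Homotopic (PMap.zero _ _) := by
  refine ⟨⟨spF, spF_aux.1, spF_aux.2⟩, fun k => ?_, fun k => ?_⟩
  · show spF ((0 : unitInterval), k) = OnePoint.some (X := MV.B (uM (spp S) (spu S))) k
    have h0 : (((0 : unitInterval), k) : LC.I.prod (MV.B (uM (spp S) (spu S)))) ∈ spO S := by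
      show (((0 : unitInterval) : ℝ)) < 1
      simp
    rw [spF, dif_pos h0]
    congr 1
    apply Subtype.ext
    apply Subtype.ext
    show spP (1 - ((0 : unitInterval) : ℝ)) k.1.1 (spu_ge k.2) = k.1.1
    have h : (1 - ((0 : unitInterval) : ℝ)) = 1 := by simp
    exact (congrArg (fun c => spP c k.1.1 (spu_ge k.2)) h).trans (spP_one k.1.1 (spu_ge k.2))
  · show spF ((1 : unitInterval), k) = OnePoint.infty
    have h0 : (((1 : unitInterval), k) : LC.I.prod (MV.B (uM (spp S) (spu S)))) ∉ spO S := by
      intro h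
      have h' : (((1 : unitInterval) : ℝ)) < 1 := h
      simp at h'
    rw [spF, dif_neg h0]

end Pool.Agent.Helper89.Stab
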